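import Pool.Agent.H84.SL.Targets

/-!
# APX: weak approximation (MP_70ba79_ag)
-/

set_option autoImplicit false

namespace Pool.Agent.H98.SL

open SC Pool.Agent.H76.KN Pool.Agent.H84.SL

section gen

variable {k K : Type} [Field k] [Field K] [Algebra k K] (v w : DV k K)

open Classical in
/-- the absolute value of a place -/
noncomputable def apxF (x : K) : ℝ := if x = 0 then 0 else (2 : ℝ) ^ (-(v.ord x))

theorem apxF_zero : apxF v 0 = 0 := by simp [apxF]

theorem apxF_ne {x : K} (hx : x ≠ 0) : apxF v x = (2 : ℝ) ^ (-(v.ord x)) := by simp [apxF, hx]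

theorem apxF_pos {x : K} (hx : x ≠ 0) : 0 < apxF v x := by
  rw [apxF_ne v hx]; positivity

theorem apxF_nonneg (x : K) : 0 ≤ apxF v x := by
  by_cases hx : x = 0
  · rw [hx, apxF_zero]
  · exact (apxF_pos v hx).le

theorem apxF_mul (x y : K) : apxF v (x * y) = apxF v x * apxF v y := by
  by_cases hx : x = 0
  · rw [hx, zero_mul, apxF_zero, zero_mul]
  by_cases hy : y = 0
  · rw [hy, mul_zero, apxF_zero, mul_zero]
  rw [apxF_ne v hx, apxF_ne v hy, apxF_ne v (mul_ne_zero hx hy), v.ord_mul x y hx hy, neg_add,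
    zpow_add₀ (by norm_num)]

theorem apxF_max (x y : K) : apxF v (x + y) ≤ max (apxF v x) (apxF v y) := by
  by_cases hx : x = 0
  · rw [hx, zero_add]; exact le_max_right _ _
  by_cases hy : y = 0
  · rw [hy, add_zero]; exact le_max_left _ _
  by_cases hxy : x + y = 0
  · rw [hxy, apxF_zero]; exact (apxF_nonneg v x).trans (le_max_left _ _)
  have h := v.ord_add x y hx hy hxy
  rw [apxF_ne v hx, apxF_ne v hy, apxF_ne v hxy]
  rcases min_le_iff.1 h with h' | h'
  · exact (zpow_le_zpow_right₀ (by norm_num) (by omega)).trans (le_max_left _ _)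
  · exact (zpow_le_zpow_right₀ (by norm_num) (by omega)).trans (le_max_right _ _)

/-- the absolute value of a place -/
noncomputable def apxA : AbsoluteValue K ℝ where
  toFun := apxF v
  map_mul' := apxF_mul v
  nonneg' := apxF_nonneg v
  eq_zero' x := by
    constructor
    · intro h
      by_contra hx
      exact (apxF_pos v hx).ne' h
    · rintro rfl; exact apxF_zero v
  add_le' x y := (apxF_max v x y).trans
    (max_le_add_of_nonneg (apxF_nonneg v x) (apxF_nonneg v y))

theorem apxA_apply (x : K) : apxA v x = apxF v x := rfl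

theorem apxA_le {x y : K} (hx : x ≠ 0) (hy : y ≠ 0) : apxA v x ≤ apxA v y ↔ v.ord y ≤ v.ord x := by
  rw [apxA_apply, apxA_apply, apxF_ne v hx, apxF_ne v hy,
    zpow_le_zpow_iff_right₀ (by norm_num : (1 : ℝ) < 2)]
  omega

theorem apxA_nontrivial : (apxA v).IsNontrivial := by
  obtain ⟨x, hx, hx1⟩ := v.ord_surj
  refine ⟨x, hx, ?_⟩
  rw [apxA_apply, apxF_ne v hx, hx1]
  norm_num

theorem apx_eq (h : (apxA v).IsEquiv (apxA w)) : v = w := by
  have hle : ∀ {x y : K}, x ≠ 0 → y ≠ 0 → (v.ord y ≤ v.ord x ↔ w.ord y ≤ w.ord x) := by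
    intro x y hx hy
    rw [← apxA_le v hx hy, ← apxA_le w hx hy]
    exact h.le_iff_le
  obtain ⟨p, hp, hp1⟩ := v.ord_surj
  have key : ∀ x : K, x ≠ 0 → w.ord x = v.ord x * w.ord p := by
    intro x hx
    have hz : p ^ (v.ord x) ≠ 0 := zpow_ne_zero _ hp
    have e : v.ord (p ^ (v.ord x)) = v.ord x := by rw [ord_zpow v hp, hp1, mul_one]
    have h1 := (hle hx hz).1 e.le
    have h2 := (hle hz hx).1 e.ge
    rw [← ord_zpow w hp]
    omega
  have hpp : 0 < w.ord p := by
    have h1 : ¬ v.ord p ≤ v.ord (1 : K) := by rw [hp1, v.ord_one]; norm_num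
    rw [hle one_ne_zero hp, w.ord_one] at h1
    omega
  have hw1 : w.ord p = 1 := by
    obtain ⟨q, hq, hq1⟩ := w.ord_surj
    rw [key q hq] at hq1
    rcases Int.eq_one_or_neg_one_of_mul_eq_one' hq1 with h' | h' <;> omega
  apply DV.ext
  funext x
  by_cases hx : x = 0
  · rw [hx, v.ord_zero, w.ord_zero]
  · rw [key x hx, hw1, mul_one]

end gen

theorem pf_APX : T_APX := by
  intro k K _ _ _ _ _ _ _ s m
  classical
  by_cases hs : s = ∅
  · exact ⟨1, one_ne_zero, by simp [hs]⟩
  obtain ⟨v₀, hv₀⟩ := Finset.nonempty_iff_ne_empty.2 hs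
  have hd := AbsoluteValue.denseRange_algebraMap_pi (F := K) (ι := s)
    (v := fun i => apxA i.1) (fun i => apxA_nontrivial i.1)
    (fun i j hij h => hij (Subtype.ext (apx_eq _ _ h)))
  have hz : ∀ v : DV k K, ∃ z : K, z ≠ 0 ∧ v.ord z = m v := by
    intro v
    obtain ⟨p, hp, hp1⟩ := v.ord_surj
    exact ⟨p ^ (m v), zpow_ne_zero _ hp, by rw [ord_zpow v hp, hp1, mul_one]⟩
  choose z hz0 hz1 using hz
  let U : Set ((i : s) → WithAbs (apxA i.1)) :=
    Set.pi Set.univ fun i => Metric.ball (WithAbs.toAbs (apxA i.1) (z i.1)) ((2 : ℝ) ^ (-(m i.1)))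
  have hU : IsOpen U := isOpen_set_pi Set.finite_univ fun i _ => Metric.isOpen_ball
  have hUne : U.Nonempty :=
    ⟨fun i => WithAbs.toAbs (apxA i.1) (z i.1), fun i _ => Metric.mem_ball_self (by positivity)⟩
  obtain ⟨a, ha⟩ := hd.exists_mem_open hU hUne
  have ha' : ∀ v ∈ s, apxF v (a - z v) < (2 : ℝ) ^ (-(m v)) := by
    intro v hv
    have h1 := ha ⟨v, hv⟩ (Set.mem_univ _)
    rw [Metric.mem_ball, dist_eq_norm] at h1
    exact h1
  have hord : ∀ v ∈ s, a ≠ 0 ∧ v.ord a = m v := by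
    intro v hv
    have h1 := ha' v hv
    by_cases he : a = z v
    · rw [he]; exact ⟨hz0 v, hz1 v⟩
    have hne : a - z v ≠ 0 := sub_ne_zero.2 he
    rw [apxF_ne v hne, zpow_lt_zpow_iff_right₀ (by norm_num : (1 : ℝ) < 2)] at h1
    have h2 : m v < v.ord (a - z v) := by omega
    have ha0 : a ≠ 0 := by
      rintro rfl
      rw [zero_sub, v.ord_neg, hz1] at h2
      omega
    refine ⟨ha0, ?_⟩
    have e1 : a = (a - z v) + z v := by ring
    have h3 := v.ord_add (a - z v) (z v) hne (hz0 v) (by rw [← e1]; exact ha0)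
    rw [← e1, hz1] at h3
    have hne' : -(a - z v) ≠ 0 := neg_ne_zero.2 hne
    have e2 : z v = -(a - z v) + a := by ring
    have h4 := v.ord_add (-(a - z v)) a hne' ha0 (by rw [← e2]; exact hz0 v)
    rw [← e2, hz1, v.ord_neg] at h4
    rcases min_le_iff.1 h4 with h5 | h5
    · omega
    · rcases min_le_iff.1 h3 with h6 | h6 <;> omega
  exact ⟨a, (hord v₀ hv₀).1, fun v hv => (hord v hv).2⟩

end Pool.Agent.H98.SL
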